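import Pool.Agent.V11245.CoreMain

/-!
# No long well-order is `Σ_1`-definable from a limit of `ω` many measurable cardinals

Let `κ` be a limit of `ω` many measurable cardinals, and let `D` be a set of more than `κ` many
subsets of `κ`.  Then no well-ordering of `D` is definable by a `Σ_1`-formula with parameter `κ`.

Idea of the proof: there is `A ∈ D` which is moved by some iterated ultrapower `i_λ : V → M_λ`,
`λ < κ`, of a given measure on `δ`, for every measurable cardinal `δ < κ` (the sets not moved by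
these embeddings are determined by their part below `δ`).  All embeddings used fix `κ`, so they
preserve the well-order, and therefore they move `A` upwards.  Choose measurable cardinals
`δ_0 < δ_1 < ...` and such iterations of lengths `λ_n < δ_{n+1}`, let `j_n` be the `n`-th one and
let `B_n` be the image of `A` under the iteration of the blocks `n, n+1, ...`.  From `A < j_n(A)`
we get `B_{n+1} < B_n`, by applying the iteration of the blocks `n+1, n+2, ...` (which maps
`j_n(A)` to `B_n`).  So `B_0 > B_1 > ...` is an infinite descending sequence.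
-/

set_option autoImplicit false

namespace Pool.Agent.Results.MP_13a02f_lc.NoLongWellOrder

open Cardinal Pool.Agent.V11245

universe u

theorem result (κ : Cardinal.{u}) (hκ : IsLimitOfOmegaMeasurables κ) (D : Set ZFSet.{u})
    (hD : ∀ A ∈ D, A ⊆ κ.ord.toZFSet) (hcard : Cardinal.lift.{u+1} κ < #D)
    (r : D → D → Prop) (hr : IsWellOrder D r) :
    ¬ ∃ φ : S1, ∀ x y : ZFSet.{u}, (∃ (hx : x ∈ D) (hy : y ∈ D), r ⟨x, hx⟩ ⟨y, hy⟩) ↔
      φ.Sat (cons x (cons y fun _ => κ.ord.toZFSet)) := by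
  classical
  rintro ⟨φ, hφ⟩
  obtain ⟨k, hk1, hk2, hk3⟩ := hκ
  have hle : ∀ n, k n ≤ κ := fun n => by
    rw [hk3]
    exact le_ciSup (Cardinal.bddAbove_of_small) n
  have hlt : ∀ n, k n < κ := fun n => (hk1 (Nat.lt_succ_self n)).trans_le (hle _)
  have hκ0 : κ ≠ 0 := ((zero_le).trans_lt (hlt 0)).ne'
  have hlim : ∀ c < κ, ∃ δ, IsMeasurable δ ∧ c < δ ∧ δ < κ := by
    intro c hc
    rw [hk3] at hc
    obtain ⟨n, hn⟩ := exists_lt_of_lt_ciSup hc
    exact ⟨k n, hk2 n, hn, hlt n⟩
  refine core hκ0 hlim D hD hcard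
    (fun a b => ∃ (ha : a ∈ D) (hb : b ∈ D), r ⟨a, ha⟩ ⟨b, hb⟩)
    (fun a b ⟨ha, hb, _⟩ => ⟨ha, hb⟩) ?_ ?_ (ν := 0) (pos_iff_ne_zero.2 hκ0) ?_
  · intro a ha b hb
    rcases trichotomous_of r ⟨a, ha⟩ ⟨b, hb⟩ with h | h | h
    · exact Or.inl ⟨ha, hb, h⟩
    · exact Or.inr (Or.inl (Subtype.ext_iff.1 h))
    · exact Or.inr (Or.inr ⟨hb, ha, h⟩)
  · intro f hf
    have hfD : ∀ n, f n ∈ D := fun n => (hf n).2.1
    obtain ⟨n, hn⟩ := WellFounded.not_rel_apply_succ (r := r) (fun n => ⟨f n, hfD n⟩)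
    exact hn (hf n).2.2
  · intro Λ _ Pt U S h hS hemb a b hab
    have h2 := emb_sat_S1 h φ _ ((hφ a b).1 hab)
    rw [cons_apply (emb h), cons_apply (emb h), hemb] at h2
    exact (hφ _ _).2 h2

end Pool.Agent.Results.MP_13a02f_lc.NoLongWellOrder
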